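import Mathlib

/-!
# The hyperbolic-plus-taxicab disk is not Busemann non-positively curved
-/

open Set Filter Topology

namespace Pool.Agent.Results.MP_b19ca0_gt.NotBusemann

/-- The Euclidean plane. -/
abbrev Plane : Type := EuclideanSpace ℝ (Fin 2)

/-- The open Euclidean unit disk `M`. -/
def M : Set Plane := {x | ‖x‖ < 1}

/-- The cross-ratio `{x, y; a, b}` of four points of a line, given by affine coordinates. -/
noncomputable def crossRatio (x y a b : ℝ) : ℝ :=
  ((x - a) * (y - b)) / ((x - b) * (y - a))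

/-- In the affine coordinate `t ↦ x + t (y - x)` of the line through `x` and `y`
(so `x` has coordinate `0` and `y` has coordinate `1`), the coordinates of the points in which
the line meets the unit circle. For distinct points of the disk this set has exactly two
elements, its infimum and its supremum. -/
def circleCoords (x y : Plane) : Set ℝ := {t : ℝ | ‖x + t • (y - x)‖ = 1}

open Classical in
/-- The Hilbert metric `h(x, y) = |log {x, y; a, b}|` of the disk, `h(x, x) = 0`. -/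
noncomputable def h (x y : Plane) : ℝ :=
  if x = y then 0
  else |Real.log (crossRatio 0 1 (sInf (circleCoords x y)) (sSup (circleCoords x y)))|

/-- The taxicab metric. -/
def m (x y : Plane) : ℝ := |x 0 - y 0| + |x 1 - y 1|

/-- The metric `d = h + m`. -/
noncomputable def d (x y : Plane) : ℝ := h x y + m x y

/-- `p` is a `d`-midpoint of the segment `[x, y]`. -/
def IsMidpt (p x y : Plane) : Prop := p ∈ segment ℝ x y ∧ d x p = d p y

/-- Non-positive curvature in the sense of Busemann of `(M, d)`: every point `o` of `M` has a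
neighbourhood (a `d`-ball of some radius `r > 0`) in which `2 d(p, q) ≤ d(y, z)` for all
`x, y, z`, where `p, q` are the midpoints of `[x, y]` and `[x, z]`. -/
def NonPositivelyCurved : Prop :=
  ∀ o ∈ M, ∃ r > 0, ∀ x ∈ M, ∀ y ∈ M, ∀ z ∈ M, d o x < r → d o y < r → d o z < r →
    ∀ p q : Plane, IsMidpt p x y → IsMidpt q x z → 2 * d p q ≤ d y z

/-! ### Formula for the Hilbert metric -/

lemma normsq (x : Plane) : ‖x‖ ^ 2 = x 0 ^ 2 + x 1 ^ 2 := by
  rw [EuclideanSpace.norm_sq_eq, Fin.sum_univ_two]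
  simp

lemma mem_M (x : Plane) : x ∈ M ↔ x 0 ^ 2 + x 1 ^ 2 < 1 := by
  unfold M
  rw [Set.mem_ofPred_eq, ← normsq]
  constructor
  · intro hx
    have := norm_nonneg x
    nlinarith
  · intro hx
    by_contra hc
    push Not at hc
    nlinarith

/-- `N = 1 - ⟨x, y⟩`. -/
def NN (x y : Plane) : ℝ := 1 - (x 0 * y 0 + x 1 * y 1)

/-- `Δ = N² - (1-|x|²)(1-|y|²)`. -/
def DD (x y : Plane) : ℝ :=
  NN x y ^ 2 - (1 - (x 0 ^ 2 + x 1 ^ 2)) * (1 - (y 0 ^ 2 + y 1 ^ 2))

lemma NN_pos {x y : Plane} (hx : x ∈ M) (hy : y ∈ M) : 0 < NN x y := by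
  rw [mem_M] at hx hy
  unfold NN
  nlinarith [sq_nonneg (x 0 - y 0), sq_nonneg (x 1 - y 1)]

lemma DD_nonneg {x y : Plane} (hx : x ∈ M) : 0 ≤ DD x y := by
  rw [mem_M] at hx
  have : DD x y = (x 0 * (y 0 - x 0) + x 1 * (y 1 - x 1)) ^ 2 +
      ((y 0 - x 0) ^ 2 + (y 1 - x 1) ^ 2) * (1 - (x 0 ^ 2 + x 1 ^ 2)) := by
    unfold DD NN; ring
  rw [this]
  have h1 : 0 ≤ ((y 0 - x 0) ^ 2 + (y 1 - x 1) ^ 2) * (1 - (x 0 ^ 2 + x 1 ^ 2)) := by
    apply mul_nonneg (by positivity) (by linarith)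
  positivity

lemma sqrt_lt {x y : Plane} (hx : x ∈ M) (hy : y ∈ M) : √(DD x y) < NN x y := by
  have h1 := NN_pos hx hy
  rw [Real.sqrt_lt' h1]
  unfold DD
  rw [mem_M] at hx hy
  have : 0 < (1 - (x 0 ^ 2 + x 1 ^ 2)) * (1 - (y 0 ^ 2 + y 1 ^ 2)) :=
    mul_pos (by linarith) (by linarith)
  linarith

lemma h_eq {x y : Plane} (hx : x ∈ M) (hy : y ∈ M) :
    h x y = Real.log ((NN x y + √(DD x y)) / (NN x y - √(DD x y))) := by
  classical
  have hN := NN_pos hx hy
  have hs := sqrt_lt hx hy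
  have hD := DD_nonneg (y := y) hx
  by_cases hxy : x = y
  · subst hxy
    have : DD x x = 0 := by unfold DD NN; ring
    simp only [h, if_true, this, Real.sqrt_zero, add_zero, sub_zero]
    rw [div_self hN.ne', Real.log_one]
  · have hA : 0 < (y 0 - x 0) ^ 2 + (y 1 - x 1) ^ 2 := by
      by_contra hc
      push Not at hc
      apply hxy
      have h0 : y 0 - x 0 = 0 := by nlinarith [sq_nonneg (y 0 - x 0), sq_nonneg (y 1 - x 1)]
      have h1 : y 1 - x 1 = 0 := by nlinarith [sq_nonneg (y 0 - x 0), sq_nonneg (y 1 - x 1)]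
      ext i
      fin_cases i
      · simp; linarith
      · simp; linarith
    set A := (y 0 - x 0) ^ 2 + (y 1 - x 1) ^ 2 with hAdef
    set B := x 0 * (y 0 - x 0) + x 1 * (y 1 - x 1) with hBdef
    set C := x 0 ^ 2 + x 1 ^ 2 - 1 with hCdef
    set S := √(DD x y) with hSdef
    have hSS : S ^ 2 = B ^ 2 - A * C := by
      rw [hSdef, Real.sq_sqrt hD, hAdef, hBdef, hCdef]; unfold DD NN; ring
    have hS0 : 0 ≤ S := Real.sqrt_nonneg _
    have hC : C < 0 := by rw [mem_M] at hx; linarith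
    have hNBC : NN x y = - B - C := by rw [hBdef, hCdef]; unfold NN; ring
    have hS2pos : 0 < S ^ 2 := by rw [hSS]; nlinarith [sq_nonneg B]
    have hSpos : 0 < S := by
      rcases hS0.lt_or_eq with h1 | h1
      · exact h1
      · rw [← h1] at hS2pos; norm_num at hS2pos
    have hset : circleCoords x y = {(-B - S) / A, (-B + S) / A} := by
      ext t
      simp only [circleCoords, Set.mem_ofPred_eq, mem_insert_iff, mem_singleton_iff]
      have hn : ‖x + t • (y - x)‖ = 1 ↔ A * t ^ 2 + 2 * B * t + C = 0 := by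
        have h1 : ‖x + t • (y - x)‖ ^ 2 = A * t ^ 2 + 2 * B * t + C + 1 := by
          rw [normsq, hAdef, hBdef, hCdef]
          simp only [PiLp.add_apply, PiLp.smul_apply, PiLp.sub_apply, smul_eq_mul]
          ring
        constructor
        · intro h2
          rw [h2] at h1
          linarith
        · intro h2
          rw [h2] at h1
          have h3 := norm_nonneg (x + t • (y - x))
          nlinarith
      rw [hn]
      have hfac : A * (A * t ^ 2 + 2 * B * t + C) = (A * t - (-B - S)) * (A * t - (-B + S)) := by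
        linear_combination hSS
      constructor
      · intro h2
        rw [h2, mul_zero] at hfac
        rcases mul_eq_zero.1 hfac.symm with h3 | h3
        · left; rw [eq_div_iff hA.ne']; linarith
        · right; rw [eq_div_iff hA.ne']; linarith
      · intro h2
        have : A * (A * t ^ 2 + 2 * B * t + C) = 0 := by
          rw [hfac]
          rcases h2 with h2 | h2
          · rw [h2]; field_simp; ring
          · rw [h2]; field_simp; ring
        rcases mul_eq_zero.1 this with h3 | h3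
        · exact absurd h3 hA.ne'
        · exact h3
    have hle : (-B - S) / A ≤ (-B + S) / A := by
      apply div_le_div_of_nonneg_right _ hA.le
      linarith
    have hinf : sInf (circleCoords x y) = (-B - S) / A := by
      rw [hset, csInf_pair, min_eq_left hle]
    have hsup : sSup (circleCoords x y) = (-B + S) / A := by
      rw [hset, csSup_pair, max_eq_right hle]
    have hcr : crossRatio 0 1 (sInf (circleCoords x y)) (sSup (circleCoords x y)) =
        (NN x y - S) / (NN x y + S) := by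
      rw [hinf, hsup, hNBC]
      unfold crossRatio
      have e1 : (0 - (-B - S) / A) * (1 - (-B + S) / A) = (B + C + S) / A := by
        field_simp
        linear_combination (-1) * hSS
      have e2 : (0 - (-B + S) / A) * (1 - (-B - S) / A) = (B + C - S) / A := by
        field_simp
        linear_combination (-1) * hSS
      rw [e1, e2, div_div_div_cancel_right₀ hA.ne']
      rw [← neg_div_neg_eq]
      congr 1 <;> ring
    have hpos1 : 0 < NN x y - S := by linarith
    have hpos2 : 0 < NN x y + S := by linarith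
    simp only [h, hxy, if_false]
    rw [hcr, Real.log_div hpos1.ne' hpos2.ne', Real.log_div hpos2.ne' hpos1.ne', abs_sub_comm,
      abs_of_nonneg]
    have := Real.log_le_log hpos1 (by linarith : NN x y - S ≤ NN x y + S)
    linarith

/-! ### Continuity -/

lemma isOpen_M : IsOpen M := isOpen_lt continuous_norm continuous_const

lemma cont_NN : Continuous (fun w : Plane × Plane => NN w.1 w.2) := by
  unfold NN
  fun_prop

lemma cont_DD : Continuous (fun w : Plane × Plane => DD w.1 w.2) := by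
  unfold DD NN
  fun_prop

lemma cont_d : ContinuousOn (fun w : Plane × Plane => d w.1 w.2) (M ×ˢ M) := by
  have h1 : ContinuousOn (fun w : Plane × Plane =>
      Real.log ((NN w.1 w.2 + √(DD w.1 w.2)) / (NN w.1 w.2 - √(DD w.1 w.2))) + m w.1 w.2)
      (M ×ˢ M) := by
    apply ContinuousOn.add
    · apply ContinuousOn.log
      · apply ContinuousOn.div
        · exact (cont_NN.add cont_DD.sqrt).continuousOn
        · exact (cont_NN.sub cont_DD.sqrt).continuousOn
        · rintro w ⟨hw1, hw2⟩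
          have := sqrt_lt hw1 hw2
          linarith
      · rintro w ⟨hw1, hw2⟩
        have h1 := sqrt_lt hw1 hw2
        have h2 := Real.sqrt_nonneg (DD w.1 w.2)
        apply ne_of_gt
        apply div_pos <;> linarith
    · unfold m
      apply Continuous.continuousOn
      fun_prop
  apply h1.congr
  rintro w ⟨hw1, hw2⟩
  simp only [d, h_eq hw1 hw2]

/-- The point with coordinates `(u, v)`. -/
noncomputable def pt (u v : ℝ) : Plane := !₂[u, v]

@[simp] lemma pt0 (u v : ℝ) : pt u v 0 = u := by simp [pt]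
@[simp] lemma pt1 (u v : ℝ) : pt u v 1 = v := by simp [pt]

lemma cont_pt : Continuous (fun w : ℝ × ℝ => pt w.1 w.2) := by
  unfold pt
  fun_prop

lemma pt_mem (u v : ℝ) : pt u v ∈ M ↔ u ^ 2 + v ^ 2 < 1 := by
  rw [mem_M]; simp

/-- Horizontal distances. -/
lemma d_axis {a b : ℝ} (ha : -1 < a) (hab : a ≤ b) (hb : b < 1) :
    d (pt a 0) (pt b 0) = (Real.log (1 + b) - Real.log (1 - b) + b) -
      (Real.log (1 + a) - Real.log (1 - a) + a) := by
  have h1 : pt a 0 ∈ M := by rw [pt_mem]; nlinarith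
  have h2 : pt b 0 ∈ M := by rw [pt_mem]; nlinarith
  have h3 : NN (pt a 0) (pt b 0) = 1 - a * b := by simp [NN]
  have h4 : DD (pt a 0) (pt b 0) = (b - a) ^ 2 := by simp [DD, NN]; ring
  have h5 : √(DD (pt a 0) (pt b 0)) = b - a := by
    rw [h4, Real.sqrt_sq (by linarith)]
  unfold d
  rw [h_eq h1 h2, h3, h5]
  have e1 : (1 - a * b + (b - a)) = (1 + b) * (1 - a) := by ring
  have e2 : (1 - a * b - (b - a)) = (1 - b) * (1 + a) := by ring
  have p1 : 0 < 1 + b := by linarith
  have p2 : 0 < 1 - a := by linarith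
  have p3 : 0 < 1 - b := by linarith
  have p4 : 0 < 1 + a := by linarith
  rw [e1, e2, Real.log_div (by positivity) (by positivity), Real.log_mul p1.ne' p2.ne',
    Real.log_mul p3.ne' p4.ne']
  have : m (pt a 0) (pt b 0) = b - a := by
    simp [m]
    rw [abs_sub_comm, abs_of_nonneg (by linarith)]
  rw [this]
  ring

/-- Vertical distances. -/
lemma d_vert {b c : ℝ} (hc : 0 ≤ c) (hbc : b ^ 2 + c ^ 2 < 1) :
    d (pt b c) (pt b (-c)) = 2 * (Real.log (√(1 - b ^ 2) + c) - Real.log (√(1 - b ^ 2) - c))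
      + 2 * c := by
  have h1 : pt b c ∈ M := by rw [pt_mem]; exact hbc
  have h2 : pt b (-c) ∈ M := by rw [pt_mem]; simpa using hbc
  set s := √(1 - b ^ 2) with hs
  have hss : s ^ 2 = 1 - b ^ 2 := Real.sq_sqrt (by nlinarith)
  have hs0 : 0 ≤ s := Real.sqrt_nonneg _
  have hsc : c < s := by
    by_contra hcon
    push Not at hcon
    nlinarith
  have h3 : NN (pt b c) (pt b (-c)) = s ^ 2 + c ^ 2 := by
    simp [NN]; rw [hss]; ring
  have h4 : DD (pt b c) (pt b (-c)) = (2 * s * c) ^ 2 := by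
    simp [DD, NN]
    linear_combination (- 4 * c ^ 2) * hss
  have h5 : √(DD (pt b c) (pt b (-c))) = 2 * s * c := by
    rw [h4, Real.sqrt_sq (by positivity)]
  unfold d
  rw [h_eq h1 h2, h3, h5]
  have e1 : s ^ 2 + c ^ 2 + 2 * s * c = (s + c) ^ 2 := by ring
  have e2 : s ^ 2 + c ^ 2 - 2 * s * c = (s - c) ^ 2 := by ring
  have p1 : 0 < s + c := by linarith
  have p2 : 0 < s - c := by linarith
  rw [e1, e2, Real.log_div (by positivity) (by positivity), Real.log_pow, Real.log_pow]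
  have : m (pt b c) (pt b (-c)) = 2 * c := by
    simp [m]
    rw [abs_of_nonneg (by linarith)]
    ring
  rw [this]
  push_cast
  ring

/-- Positivity to the right of a zero with positive derivative. -/
lemma eventually_pos {f : ℝ → ℝ} {f' : ℝ} (hf : HasDerivAt f f' 0) (h0 : f 0 = 0)
    (hf' : 0 < f') : ∀ᶠ t in 𝓝[>] (0 : ℝ), 0 < f t := by
  have h1 := (hasDerivAt_iff_tendsto_slope_zero.1 hf)
  have h2 : ∀ᶠ t in 𝓝[≠] (0 : ℝ), 0 < t⁻¹ • (f (0 + t) - f 0) := h1.eventually (lt_mem_nhds hf')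
  have h3 : ∀ᶠ t in 𝓝[>] (0 : ℝ), 0 < t⁻¹ • (f (0 + t) - f 0) :=
    h2.filter_mono (nhdsWithin_mono _ (fun t (ht : 0 < t) => ne_of_gt ht))
  filter_upwards [h3, self_mem_nhdsWithin] with t ht ht0
  simp only [zero_add, h0, sub_zero, smul_eq_mul] at ht
  have ht0' : 0 < t := ht0
  have := mul_pos ht0' ht
  rwa [← mul_assoc, mul_inv_cancel₀ ht0'.ne', one_mul] at this

/-- `φ(t) = log (1+t) - log (1-t) + t`. -/
noncomputable def phi (t : ℝ) : ℝ := Real.log (1 + t) - Real.log (1 - t) + t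

lemma hasDeriv_phi {t : ℝ} (h1 : -1 < t) (h2 : t < 1) :
    HasDerivAt phi (1 + 2 / (1 - t ^ 2)) t := by
  have p1 : 0 < 1 + t := by linarith
  have p2 : 0 < 1 - t := by linarith
  have p3 : 0 < 1 - t ^ 2 := by nlinarith
  have d1 : HasDerivAt (fun t : ℝ => 1 + t) 1 t := by
    simpa using (hasDerivAt_id t).const_add 1
  have d2 : HasDerivAt (fun t : ℝ => 1 - t) (-1) t := by
    simpa using (hasDerivAt_id t).const_sub 1
  have := ((d1.log p1.ne').sub (d2.log p2.ne')).add (hasDerivAt_id t)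
  refine (this.congr_deriv ?_)
  field_simp
  ring

/-- The parameter `τ₀(ε) ε = (ε + κ ε²)/2` with `κ = 69/200`. -/
noncomputable def q (e : ℝ) : ℝ := 3 / 5 + (e + 69 / 200 * e ^ 2) / 2

lemma hasDeriv_q (e : ℝ) : HasDerivAt q ((1 + 69 / 100 * e) / 2) e := by
  unfold q
  have h1 : HasDerivAt (fun e : ℝ => e ^ 2) (2 * e) e := by
    simpa using hasDerivAt_pow 2 e
  have := (((hasDerivAt_id e).add (h1.const_mul (69 / 200))).div_const 2).const_add (3 / 5)
  refine this.congr_deriv ?_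
  ring

lemma hasDeriv_inv {t : ℝ} (h1 : -1 < t) (h2 : t < 1) :
    HasDerivAt (fun t : ℝ => 1 + 2 / (1 - t ^ 2)) (4 * t / (1 - t ^ 2) ^ 2) t := by
  have p3 : 0 < 1 - t ^ 2 := by nlinarith
  have h1 : HasDerivAt (fun e : ℝ => e ^ 2) (2 * t) t := by
    simpa using hasDerivAt_pow 2 t
  have h2 : HasDerivAt (fun e : ℝ => 1 - e ^ 2) (-(2 * t)) t := by
    simpa using h1.const_sub 1
  have := (((hasDerivAt_const t (2 : ℝ)).div h2 p3.ne')).const_add 1
  refine this.congr_deriv ?_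
  field_simp
  ring

lemma q_bounds {e : ℝ} (h0 : 0 ≤ e) (h1 : e < 1 / 10) : 3 / 5 ≤ q e ∧ q e < 4 / 5 := by
  unfold q
  constructor <;> nlinarith

lemma K_pos : ∀ᶠ e in 𝓝[>] (0 : ℝ), 2 * phi (q e) < phi (3 / 5) + phi (3 / 5 + e) := by
  -- the derivative `k`
  have hk : HasDerivAt (fun e : ℝ => (1 + 2 / (1 - (3 / 5 + e) ^ 2)) -
      (1 + 2 / (1 - (q e) ^ 2)) * (1 + 69 / 100 * e)) (267 / 3200) 0 := by
    have g1 : HasDerivAt (fun e : ℝ => (3 / 5 + e)) 1 0 := by
      simpa using (hasDerivAt_id (0 : ℝ)).const_add (3 / 5)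
    have g2 : HasDerivAt (fun t : ℝ => 1 + 2 / (1 - t ^ 2)) (4 * (3 / 5) / (1 - (3 / 5) ^ 2) ^ 2)
        (3 / 5 + 0) := by
      rw [add_zero]; exact hasDeriv_inv (by norm_num) (by norm_num)
    have g3 := g2.comp (0 : ℝ) g1
    have g4 : HasDerivAt (fun t : ℝ => 1 + 2 / (1 - t ^ 2)) (4 * (3 / 5) / (1 - (3 / 5) ^ 2) ^ 2)
        (q 0) := by
      have : q 0 = 3 / 5 := by simp [q]
      rw [this]
      exact hasDeriv_inv (by norm_num) (by norm_num)
    have g5 := g4.comp (0 : ℝ) (hasDeriv_q 0)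
    have g6 : HasDerivAt (fun e : ℝ => 1 + 69 / 100 * e) (69 / 100) 0 := by
      simpa using ((hasDerivAt_id (0 : ℝ)).const_mul (69 / 100)).const_add 1
    have := g3.sub (g5.mul g6)
    refine this.congr_deriv ?_
    have : q 0 = 3 / 5 := by simp [q]
    simp only [Function.comp, this]
    norm_num
  have hk0 := eventually_pos hk (by simp only [q]; norm_num) (by norm_num)
  rw [eventually_nhdsWithin_iff, Metric.eventually_nhds_iff] at hk0
  obtain ⟨δ, hδ, hk1⟩ := hk0
  have hmin : 0 < min δ (1 / 10) := by positivity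
  filter_upwards [Ioo_mem_nhdsGT hmin] with e he
  have he0 : 0 < e := he.1
  have he1 : e < δ := lt_of_lt_of_le he.2 (min_le_left _ _)
  have he2 : e < 1 / 10 := lt_of_lt_of_le he.2 (min_le_right _ _)
  have hder : ∀ t : ℝ, 0 ≤ t → t < 1 / 10 → HasDerivAt
      (fun t => phi (3 / 5 + t) - 2 * phi (q t))
      ((1 + 2 / (1 - (3 / 5 + t) ^ 2)) - (1 + 2 / (1 - (q t) ^ 2)) * (1 + 69 / 100 * t)) t := by
    intro t ht0 ht1
    have g1 : HasDerivAt (fun e : ℝ => (3 / 5 + e)) 1 t := by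
      simpa using (hasDerivAt_id t).const_add (3 / 5)
    have g2 := (hasDeriv_phi (t := 3 / 5 + t) (by linarith) (by linarith)).comp t g1
    obtain ⟨hq1, hq2⟩ := q_bounds ht0 ht1
    have g3 := (hasDeriv_phi (t := q t) (by linarith) (by linarith)).comp t (hasDeriv_q t)
    refine (g2.sub (g3.const_mul 2)).congr_deriv ?_
    ring
  obtain ⟨ξ, hξ, hξe⟩ := exists_hasDerivAt_eq_slope (fun t => phi (3 / 5 + t) - 2 * phi (q t))
    (fun t => (1 + 2 / (1 - (3 / 5 + t) ^ 2)) - (1 + 2 / (1 - (q t) ^ 2)) * (1 + 69 / 100 * t))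
    he0 (fun t ht => (hder t ht.1 (lt_of_le_of_lt ht.2 he2)).continuousAt.continuousWithinAt)
    (fun t ht => hder t ht.1.le (ht.2.trans he2))
  have hpos := hk1 (y := ξ) (by rw [Real.dist_eq, sub_zero, abs_of_pos hξ.1]; linarith [hξ.2]) hξ.1
  rw [hξe] at hpos
  have hq0 : q 0 = 3 / 5 := by simp [q]
  simp only [add_zero, hq0, sub_zero] at hpos
  have := mul_pos hpos he0
  rw [div_mul_cancel₀ _ he0.ne'] at this
  linarith

/-- `F(t) = 2/√(1-t²) + 1`. -/
noncomputable def F (t : ℝ) : ℝ := 2 / √(1 - t ^ 2) + 1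

lemma hasDeriv_F {t : ℝ} (h1 : -1 < t) (h2 : t < 1) :
    HasDerivAt F (2 * t / (√(1 - t ^ 2) ^ 3)) t := by
  have p3 : 0 < 1 - t ^ 2 := by nlinarith
  have h1 : HasDerivAt (fun e : ℝ => e ^ 2) (2 * t) t := by
    simpa using hasDerivAt_pow 2 t
  have h2 : HasDerivAt (fun e : ℝ => 1 - e ^ 2) (-(2 * t)) t := by
    simpa using h1.const_sub 1
  have h3 := h2.sqrt p3.ne'
  have h4 : 0 < √(1 - t ^ 2) := Real.sqrt_pos.2 p3
  have := ((hasDerivAt_const t (2 : ℝ)).div h3 h4.ne').add_const 1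
  refine this.congr_deriv ?_
  field_simp
  ring

lemma sqrt_val : √(1 - (3 / 5 : ℝ) ^ 2) = 4 / 5 := by
  rw [show (1 : ℝ) - (3 / 5) ^ 2 = (4 / 5) ^ 2 by norm_num, Real.sqrt_sq (by norm_num)]

lemma G_pos : ∀ᶠ e in 𝓝[>] (0 : ℝ), F (3 / 5 + e) < (1 + 69 / 200 * e) * F (q e) := by
  have g1 : HasDerivAt (fun e : ℝ => (3 / 5 + e)) 1 0 := by
    simpa using (hasDerivAt_id (0 : ℝ)).const_add (3 / 5)
  have g2 : HasDerivAt F (2 * (3 / 5) / (√(1 - (3 / 5) ^ 2) ^ 3)) (3 / 5 + 0) := by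
    rw [add_zero]; exact hasDeriv_F (by norm_num) (by norm_num)
  have g3 := g2.comp (0 : ℝ) g1
  have g4 : HasDerivAt F (2 * (3 / 5) / (√(1 - (3 / 5) ^ 2) ^ 3)) (q 0) := by
    have : q 0 = 3 / 5 := by simp [q]
    rw [this]
    exact hasDeriv_F (by norm_num) (by norm_num)
  have g5 := g4.comp (0 : ℝ) (hasDeriv_q 0)
  have g6 : HasDerivAt (fun e : ℝ => 1 + 69 / 200 * e) (69 / 200) 0 := by
    simpa using ((hasDerivAt_id (0 : ℝ)).const_mul (69 / 200)).const_add 1
  have hq0 : q 0 = 3 / 5 := by simp [q]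
  have hF : F (3 / 5) = 7 / 2 := by unfold F; rw [sqrt_val]; norm_num
  have hk := (g6.mul g5).sub g3
  have hk' : HasDerivAt (fun e : ℝ => (1 + 69 / 200 * e) * F (q e) - F (3 / 5 + e))
      (57 / 1600) 0 := by
    refine hk.congr_deriv ?_
    simp only [Function.comp, hq0, hF, sqrt_val]
    norm_num
  have := eventually_pos hk' (by simp [hq0]) (by norm_num)
  filter_upwards [this] with e he
  linarith

lemma d_reflect {u v u' v' : ℝ} (h1 : pt u v ∈ M) (h2 : pt u' v' ∈ M) :
    d (pt u (-v)) (pt u' (-v')) = d (pt u v) (pt u' v') := by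
  have h3 : pt u (-v) ∈ M := by rw [pt_mem] at *; simpa using h1
  have h4 : pt u' (-v') ∈ M := by rw [pt_mem] at *; simpa using h2
  unfold d
  rw [h_eq h1 h2, h_eq h3 h4]
  have e1 : NN (pt u (-v)) (pt u' (-v')) = NN (pt u v) (pt u' v') := by simp [NN]
  have e2 : DD (pt u (-v)) (pt u' (-v')) = DD (pt u v) (pt u' v') := by simp [DD, NN]
  have e3 : m (pt u (-v)) (pt u' (-v')) = m (pt u v) (pt u' v') := by
    simp only [m, pt0, pt1]
    rw [show -v - -v' = -(v - v') by ring, abs_neg]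
  rw [e1, e2, e3]

lemma d_nonneg (x y : Plane) : 0 ≤ d x y := by
  unfold d h m
  split_ifs <;> positivity

lemma d_self (x : Plane) : d x x = 0 := by
  simp [d, h, m]

/-- Monotonicity used for the vertical distances. -/
lemma vert_mono {σ σ₀ v v₀ : ℝ} (h1 : σ ≤ σ₀) (h2 : v₀ ≤ v) (h3 : 0 < v₀) (h4 : v < σ) :
    Real.log (σ₀ + v₀) - Real.log (σ₀ - v₀) ≤ Real.log (σ + v) - Real.log (σ - v) := by
  have p1 : 0 < σ₀ + v₀ := by linarith
  have p2 : 0 < σ₀ - v₀ := by linarith
  have p3 : 0 < σ + v := by linarith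
  have p4 : 0 < σ - v := by linarith
  have := Real.log_le_log (by positivity : 0 < (σ₀ + v₀) * (σ - v))
    (by nlinarith : (σ₀ + v₀) * (σ - v) ≤ (σ + v) * (σ₀ - v₀))
  rw [Real.log_mul p1.ne' p4.ne', Real.log_mul p3.ne' p2.ne'] at this
  linarith

lemma hasDeriv_vert {s k : ℝ} (hs : 0 < s) :
    HasDerivAt (fun c : ℝ => 2 * (Real.log (s + k * c) - Real.log (s - k * c)) + 2 * (k * c))
      (2 * k * (2 / s + 1)) 0 := by
  have d0 : HasDerivAt (fun c : ℝ => k * c) k 0 := by
    simpa using (hasDerivAt_id (0 : ℝ)).const_mul k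
  have d1 : HasDerivAt (fun c : ℝ => s + k * c) k 0 := by
    simpa using d0.const_add s
  have d2 : HasDerivAt (fun c : ℝ => s - k * c) (-k) 0 := by
    simpa using d0.const_sub s
  have e1 : s + k * 0 ≠ 0 := by simpa using hs.ne'
  have e2 : s - k * 0 ≠ 0 := by simpa using hs.ne'
  have := (((d1.log e1).sub (d2.log e2)).const_mul 2).add (d0.const_mul 2)
  refine this.congr_deriv ?_
  simp only [mul_zero, add_zero, sub_zero]
  field_simp
  ring

/-- `(M, d)` is not non-positively curved in the sense of Busemann. -/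
theorem result : ¬ NonPositivelyCurved := by
  intro H
  have ho : pt (3 / 5) 0 ∈ M := by rw [pt_mem]; norm_num
  obtain ⟨r, hr, H⟩ := H (pt (3 / 5) 0) ho
  -- choice of `e`
  have hcont : ∀ᶠ e in 𝓝[>] (0 : ℝ), phi (3 / 5 + e) - phi (3 / 5) < r := by
    have h1 : ContinuousAt (fun e : ℝ => phi (3 / 5 + e) - phi (3 / 5)) 0 := by
      have g1 : HasDerivAt (fun e : ℝ => (3 / 5 + e)) 1 0 := by
        simpa using (hasDerivAt_id (0 : ℝ)).const_add (3 / 5)
      have g2 : HasDerivAt phi (1 + 2 / (1 - (3 / 5 + 0) ^ 2)) (3 / 5 + 0) :=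
        hasDeriv_phi (by norm_num) (by norm_num)
      exact ((g2.comp (0 : ℝ) g1).sub_const _).continuousAt
    have h2 : ∀ᶠ e in 𝓝 (0 : ℝ), phi (3 / 5 + e) - phi (3 / 5) < r :=
      h1.eventually_lt continuousAt_const (by simpa using hr)
    exact h2.filter_mono nhdsWithin_le_nhds
  obtain ⟨e, ⟨⟨hK, hG⟩, hr1⟩, he⟩ := (((K_pos.and G_pos).and hcont).and
    (Ioo_mem_nhdsGT (show (0 : ℝ) < 1 / 10 by norm_num))).exists
  have he0 : 0 < e := he.1
  have he1 : e < 1 / 10 := he.2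
  obtain ⟨hq1, hq2⟩ := q_bounds he0.le he1
  set τ₀ : ℝ := (1 + 69 / 200 * e) / 2 with hτ₀
  have hqe : q e = 3 / 5 + τ₀ * e := by rw [hτ₀]; unfold q; ring
  have hτpos : 0 < τ₀ := by rw [hτ₀]; positivity
  have hτ1 : τ₀ < 1 := by rw [hτ₀]; linarith
  set b : ℝ := 3 / 5 + e with hb
  have hb0 : 3 / 5 < b := by linarith
  have hb1 : b < 7 / 10 := by linarith
  -- conditions on `c`
  have hcont2 : ∀ f g : ℝ → Plane, Continuous f → Continuous g → f 0 ∈ M → g 0 ∈ M →
      ContinuousAt (fun c => d (f c) (g c)) 0 := by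
    intro f g hf hg hf0 hg0
    have h1 : ContinuousAt (fun w : Plane × Plane => d w.1 w.2) (f 0, g 0) :=
      cont_d.continuousAt ((isOpen_M.prod isOpen_M).mem_nhds ⟨hf0, hg0⟩)
    exact ContinuousAt.comp (f := fun c => (f c, g c)) (x := (0 : ℝ)) h1
      (hf.prodMk hg).continuousAt
  have hcpt : ∀ u k : ℝ, Continuous (fun c : ℝ => pt u (k * c)) := by
    intro u k
    exact cont_pt.comp (continuous_const.prodMk (continuous_const.mul continuous_id))
  have hbM : pt b 0 ∈ M := by rw [pt_mem]; nlinarith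
  have hqM : pt (q e) 0 ∈ M := by rw [pt_mem]; nlinarith
  have c1 : ∀ᶠ c in 𝓝[>] (0 : ℝ), d (pt (3 / 5) 0) (pt b (1 * c)) < r := by
    refine Filter.Eventually.filter_mono nhdsWithin_le_nhds ?_
    refine (hcont2 _ _ continuous_const (hcpt b 1) ho (by simpa using hbM)).eventually_lt
      continuousAt_const ?_
    simp only [mul_zero]
    rw [d_axis (by norm_num) (by linarith) (by linarith)]
    exact hr1
  have c2 : ∀ᶠ c in 𝓝[>] (0 : ℝ), d (pt (3 / 5) 0) (pt b ((-1) * c)) < r := by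
    refine Filter.Eventually.filter_mono nhdsWithin_le_nhds ?_
    refine (hcont2 _ _ continuous_const (hcpt b (-1)) ho (by simpa using hbM)).eventually_lt
      continuousAt_const ?_
    simp only [mul_zero]
    rw [d_axis (by norm_num) (by linarith) (by linarith)]
    exact hr1
  have c3 : ∀ᶠ c in 𝓝[>] (0 : ℝ), d (pt (3 / 5) 0) (pt (q e) (τ₀ * c)) <
      d (pt (q e) (τ₀ * c)) (pt b (1 * c)) := by
    refine Filter.Eventually.filter_mono nhdsWithin_le_nhds ?_
    refine (hcont2 _ _ continuous_const (hcpt (q e) τ₀) ho (by simpa using hqM)).eventually_lt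
      (hcont2 _ _ (hcpt (q e) τ₀) (hcpt b 1) (by simpa using hqM) (by simpa using hbM)) ?_
    simp only [mul_zero]
    rw [d_axis (by norm_num) hq1 (by linarith), d_axis (by linarith) (by rw [hqe, hb]; nlinarith)
      (by linarith)]
    have h1 : phi (q e) = Real.log (1 + q e) - Real.log (1 - q e) + q e := rfl
    have h2 : phi b = Real.log (1 + b) - Real.log (1 - b) + b := rfl
    have h3 : phi (3 / 5) = Real.log (1 + 3 / 5) - Real.log (1 - 3 / 5) + 3 / 5 := rfl
    rw [← h1, ← h2, ← h3]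
    linarith
  have hsb : 0 < √(1 - b ^ 2) := Real.sqrt_pos.2 (by nlinarith)
  have hsq : 0 < √(1 - (q e) ^ 2) := Real.sqrt_pos.2 (by nlinarith)
  have c4 : ∀ᶠ c in 𝓝[>] (0 : ℝ),
      0 < 2 * (2 * (Real.log (√(1 - (q e) ^ 2) + τ₀ * c) - Real.log (√(1 - (q e) ^ 2) - τ₀ * c))
        + 2 * (τ₀ * c)) -
        (2 * (Real.log (√(1 - b ^ 2) + 1 * c) - Real.log (√(1 - b ^ 2) - 1 * c)) + 2 * (1 * c)) := by
    have h1 := ((hasDeriv_vert (k := τ₀) hsq).const_mul 2).sub (hasDeriv_vert (k := 1) hsb)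
    refine eventually_pos h1 (by simp) ?_
    have h2 : F b = 2 / √(1 - b ^ 2) + 1 := rfl
    have h3 : F (q e) = 2 / √(1 - (q e) ^ 2) + 1 := rfl
    rw [← h2, ← h3]
    have h4 : (1 + 69 / 200 * e) = 2 * τ₀ := by rw [hτ₀]; ring
    rw [h4] at hG
    nlinarith
  obtain ⟨c, ⟨⟨⟨hc1, hc2⟩, hc3⟩, hc4⟩, hc⟩ := ((((c1.and c2).and c3).and c4).and
    (Ioo_mem_nhdsGT (show (0 : ℝ) < 1 / 10 by norm_num))).exists
  have hc0 : 0 < c := hc.1
  have hc10 : c < 1 / 10 := hc.2
  rw [one_mul] at hc1 hc3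
  rw [neg_one_mul] at hc2
  simp only [one_mul] at hc4
  -- the points
  have hyM : pt b c ∈ M := by rw [pt_mem]; nlinarith
  have hzM : pt b (-c) ∈ M := by rw [pt_mem]; nlinarith
  have hPM : ∀ τ ∈ Icc τ₀ 1, pt (3 / 5 + τ * e) (τ * c) ∈ M := by
    rintro τ ⟨ht0, ht1⟩
    rw [pt_mem]
    have h1 : 0 < τ := by linarith
    have h2 : 3 / 5 + τ * e < 7 / 10 := by nlinarith
    have h3 : 0 < 3 / 5 + τ * e := by positivity
    have h4 : τ * c < 1 / 10 := by nlinarith
    have h5 : 0 < τ * c := by positivity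
    nlinarith
  have hP : Continuous (fun τ : ℝ => pt (3 / 5 + τ * e) (τ * c)) :=
    cont_pt.comp (by fun_prop : Continuous (fun τ : ℝ => (3 / 5 + τ * e, τ * c)))
  have hIVT := intermediate_value_Icc (f := fun τ => d (pt (3 / 5) 0) (pt (3 / 5 + τ * e) (τ * c)) -
    d (pt (3 / 5 + τ * e) (τ * c)) (pt b c)) hτ1.le (by
      apply ContinuousOn.sub
      · exact cont_d.comp (f := fun τ : ℝ => (pt (3 / 5) 0, pt (3 / 5 + τ * e) (τ * c)))
          (continuous_const.prodMk hP).continuousOn (fun τ ht => ⟨ho, hPM τ ht⟩)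
      · exact cont_d.comp (f := fun τ : ℝ => (pt (3 / 5 + τ * e) (τ * c), pt b c))
          (hP.prodMk continuous_const).continuousOn (fun τ ht => ⟨hPM τ ht, hyM⟩))
  have h0mem : (0 : ℝ) ∈ Icc
      (d (pt (3 / 5) 0) (pt (3 / 5 + τ₀ * e) (τ₀ * c)) - d (pt (3 / 5 + τ₀ * e) (τ₀ * c)) (pt b c))
      (d (pt (3 / 5) 0) (pt (3 / 5 + 1 * e) (1 * c)) - d (pt (3 / 5 + 1 * e) (1 * c)) (pt b c)) := by
    constructor
    · rw [← hqe]; linarith
    · rw [one_mul, one_mul, ← hb, d_self, sub_zero]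
      exact d_nonneg _ _
  obtain ⟨τ, ht, hτ⟩ := hIVT h0mem
  have ht0 : τ₀ ≤ τ := ht.1
  have ht1 : τ ≤ 1 := ht.2
  have htpos : 0 < τ := by linarith
  have hPτ := hPM τ ht
  have hmid1 : IsMidpt (pt (3 / 5 + τ * e) (τ * c)) (pt (3 / 5) 0) (pt b c) := by
    refine ⟨⟨1 - τ, τ, by linarith, by linarith, by ring, ?_⟩, ?_⟩
    · ext i
      fin_cases i
      · simp [hb]; ring
      · simp
    · have : d (pt (3 / 5) 0) (pt (3 / 5 + τ * e) (τ * c)) -
        d (pt (3 / 5 + τ * e) (τ * c)) (pt b c) = 0 := hτ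
      linarith
  have hmid2 : IsMidpt (pt (3 / 5 + τ * e) (-(τ * c))) (pt (3 / 5) 0) (pt b (-c)) := by
    refine ⟨⟨1 - τ, τ, by linarith, by linarith, by ring, ?_⟩, ?_⟩
    · ext i
      fin_cases i
      · simp [hb]; ring
      · simp
    · rw [d_reflect hPτ hyM]
      have h1 := d_reflect ho hPτ
      rw [neg_zero] at h1
      rw [h1]
      exact hmid1.2
  have hfin := H (pt (3 / 5) 0) ho (pt b c) hyM (pt b (-c)) hzM (by rw [d_self]; exact hr)
    hc1 hc2 _ _ hmid1 hmid2
  have hvy := d_vert hc0.le ((pt_mem _ _).1 hyM)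
  have hvp := d_vert (mul_pos htpos hc0).le ((pt_mem _ _).1 hPτ)
  rw [hvy, hvp] at hfin
  have hσ : √(1 - (3 / 5 + τ * e) ^ 2) ≤ √(1 - (q e) ^ 2) := by
    apply Real.sqrt_le_sqrt
    rw [hqe]
    have h1 : τ₀ * e ≤ τ * e := mul_le_mul_of_nonneg_right ht0 he0.le
    have h2 : 0 < τ₀ * e := by positivity
    nlinarith
  have hlt : τ * c < √(1 - (3 / 5 + τ * e) ^ 2) := by
    apply Real.lt_sqrt_of_sq_lt
    have := (pt_mem _ _).1 hPτ
    linarith
  have hmono := vert_mono hσ (mul_le_mul_of_nonneg_right ht0 hc0.le) (mul_pos hτpos hc0) hlt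
  have h1 : τ₀ * c ≤ τ * c := mul_le_mul_of_nonneg_right ht0 hc0.le
  linarith

end Pool.Agent.Results.MP_b19ca0_gt.NotBusemann
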